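import Pool.Agent.W661.RC.Stm2

/-!
# Project RC (helper661): the blocks form a *-subalgebra
-/

set_option autoImplicit false

namespace Pool.Agent.W303.RC.Alg

open Matrix Pool.Agent.W661.RC
open scoped ComplexOrder

theorem blk_mul {I K : Type} [Fintype I] {c : I → K} {l : K → ℕ}
    {X Y : Matrix (Jx c l) (Jx c l) ℂ} (hX : Blk c l X) (hY : Blk c l Y) :
    Blk c l (X * Y) := by
  obtain ⟨α, hα, hXα⟩ := hX
  obtain ⟨β, hβ, hYβ⟩ := hY
  refine ⟨α * β, ?_, ?_⟩
  · intro i j hij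
    rw [Matrix.mul_apply]
    refine Finset.sum_eq_zero fun m _ => ?_
    by_cases h : c i = c m
    · rw [hβ m j (fun h2 => hij (h.trans h2)), mul_zero]
    · rw [hα i m h, zero_mul]
  · intro x y
    rw [Matrix.mul_apply, Fintype.sum_sigma]
    have key : ∀ m : I, ∑ q : Fin (l (c m)), X x ⟨m, q⟩ * Y ⟨m, q⟩ y =
        α x.1 m * (if (x.2 : ℕ) = (y.2 : ℕ) then β m y.1 else 0) := by
      intro m
      by_cases h : c x.1 = c m
      · have hlt : (x.2 : ℕ) < l (c m) := by rw [← h]; exact x.2.2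
        rw [Finset.sum_eq_single (⟨(x.2 : ℕ), hlt⟩ : Fin (l (c m)))]
        · rw [hXα, hYβ]
          simp
        · intro q _ hq
          have hne : (x.2 : ℕ) ≠ (q : ℕ) := fun h2 => hq (Fin.ext h2.symm)
          rw [hXα, if_neg (by exact hne), zero_mul]
        · intro h2
          exact absurd (Finset.mem_univ _) h2
      · rw [hα x.1 m h, zero_mul]
        refine Finset.sum_eq_zero fun q _ => ?_
        rw [hXα]
        show (if _ then α x.1 m else 0) * _ = 0
        rw [hα x.1 m h, ite_self, zero_mul]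
    rw [Finset.sum_congr rfl (fun m _ => key m)]
    by_cases h : (x.2 : ℕ) = (y.2 : ℕ)
    · simp only [if_pos h]
      rw [Matrix.mul_apply]
    · simp only [if_neg h, mul_zero, Finset.sum_const_zero]

theorem main : AlgP := by
  intro d O
  refine ⟨{ carrier := O.alg, add_mem' := ?_, zero_mem' := ?_, mul_mem' := ?_,
            smul_mem' := ?_, star_mem' := ?_ }, rfl⟩
  · -- add
    rintro a b ⟨X, ⟨α, hα, hX⟩, rfl⟩ ⟨Y, ⟨β, hβ, hY⟩, rfl⟩
    refine ⟨X + Y, ⟨α + β, ?_, ?_⟩, ?_⟩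
    · intro i j hij
      rw [Matrix.add_apply, hα i j hij, hβ i j hij, add_zero]
    · intro x y
      rw [Matrix.add_apply, hX, hY, Matrix.add_apply]
      split_ifs
      · rfl
      · rw [add_zero]
    · rw [Matrix.mul_add, Matrix.add_mul]
  · -- zero
    refine ⟨0, ⟨0, ?_, ?_⟩, ?_⟩
    · intro i j _; rfl
    · intro x y
      simp
    · simp
  · -- mul
    rintro a b ⟨X, hX, rfl⟩ ⟨Y, hY, rfl⟩
    refine ⟨X * Y, blk_mul hX hY, ?_⟩
    calc O.Θ * X * O.Θᴴ * (O.Θ * Y * O.Θᴴ)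
        = O.Θ * X * (O.Θᴴ * O.Θ) * Y * O.Θᴴ := by simp only [Matrix.mul_assoc]
      _ = O.Θ * (X * Y) * O.Θᴴ := by
          rw [O.iso, Matrix.mul_one]
          simp only [Matrix.mul_assoc]
  · -- smul
    rintro r a ⟨X, ⟨α, hα, hX⟩, rfl⟩
    refine ⟨r • X, ⟨r • α, ?_, ?_⟩, ?_⟩
    · intro i j hij
      rw [Matrix.smul_apply, hα i j hij, smul_zero]
    · intro x y
      rw [Matrix.smul_apply, hX, Matrix.smul_apply]
      split_ifs
      · rfl
      · rw [smul_zero]
    · rw [Matrix.mul_smul, Matrix.smul_mul]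
  · -- star
    rintro a ⟨X, ⟨α, hα, hX⟩, rfl⟩
    refine ⟨Xᴴ, ⟨αᴴ, ?_, ?_⟩, ?_⟩
    · intro i j hij
      rw [Matrix.conjTranspose_apply, hα j i (fun h => hij h.symm), star_zero]
    · intro x y
      rw [Matrix.conjTranspose_apply, hX]
      by_cases h : (x.2 : ℕ) = (y.2 : ℕ)
      · rw [if_pos h, if_pos h.symm, Matrix.conjTranspose_apply]
      · rw [if_neg h, if_neg (fun h2 => h h2.symm), star_zero]
    · rw [Matrix.star_eq_conjTranspose, Matrix.conjTranspose_mul, Matrix.conjTranspose_mul,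
        Matrix.conjTranspose_conjTranspose, Matrix.mul_assoc]

end Pool.Agent.W303.RC.Alg
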